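import Pool.Agent.Y213.NF.Mem
import Pool.Agent.Y213.BD.Final

/-! Points of bounded degree of closed subvarieties of `E ^ r × ℙ ^ n`: the main estimate. -/

set_option autoImplicit false

namespace Pool.Agent.Y213.NF

open WeierstrassCurve Pool.Agent.H901R3.MS MvPolynomial NumberField Pool.Agent.Y213.EC
open Pool.Agent.Y213.BD

open scoped LinearAlgebra.Projectivization

open scoped Classical in
/-- the reduction at a good prime of the vectors of a class -/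
theorem red_classZ (K : Type) [Field K] [NumberField K] {r n q m N : ℕ} (a b : 𝓞 K)
    (G : Fin q → Pol (𝓞 K) r n) (ν : Fin N → (Fin n →₀ ℕ)) (L : ℕ)
    (κ : Fin r → Pt (a : K) (b : K)) (p : ℕ) [Fact p.Prime] (φ : 𝓞 K →+* ZMod p)
    (hdφ : Disc (φ a) (φ b)) (hkill : ∀ P : Pt (φ a) (φ b), L • P = 0) :
    ∃ S : Fin r → Pt ((cc p).comp φ a) ((cc p).comp φ b),
      ∀ (x : Fin N → 𝓞 K) (s : Fin r → Pt (a : K) (b : K)), RdZ a b G m ν x s →
      (∀ i, ∃ δ : Pt (a : K) (b : K), s i = κ i + L • δ) →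
      ∃ (l : AlgebraicClosure (ZMod p)) (y : Fin (m + 1) → Fin n → AlgebraicClosure (ZMod p)),
        y ∈ ZS a b G m ((cc p).comp φ) S ∧ ∀ t, cc p (φ (x t)) = l * cfv ν (pf y) t := by
  obtain ⟨w, hw⟩ := exists_place K (ZMod p) p (Fact.out : p.Prime).ne_zero φ
  obtain ⟨redK, hred⟩ := exists_red w (a := (a : K)) (b := (b : K)) (a' := φ a) (b' := φ b)
    (hw a).1 (hw b).1 (hw a).2 (hw b).2 hdφ
  have hdc : Disc ((cc p).comp φ a) ((cc p).comp φ b) := BD.disc_map (cc p) hdφ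
  obtain ⟨jc, hjc⟩ := exists_map (cc p) (a := φ a) (b := φ b) (a' := (cc p).comp φ a)
    (b' := (cc p).comp φ b) rfl rfl hdc
  refine ⟨fun i => jc (redK (κ i)), ?_⟩
  intro x s hx hs
  have h1 := hx p φ w hw redK hred (AlgebraicClosure (ZMod p)) (cc p) hdc jc hjc
  have h2 : (fun i => jc (redK (κ i))) = fun i => jc (redK (s i)) := by
    funext i
    obtain ⟨δ, hδ⟩ := hs i
    rw [hδ, map_add, map_nsmul, hkill, add_zero]
  rw [h2]
  exact h1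

theorem homog_of_L {R : Type} [CommRing R] {N k : ℕ} {Λ : Finset (Fin N →₀ ℕ)}
    (hΛ : ∀ α ∈ Λ, ∑ s, α s = k) {g : MvPolynomial (Fin N) R} (hg : g.support ⊆ Λ) :
    g.IsHomogeneous k := by
  intro e he
  have h1 := hΛ e (hg (mem_support_iff.2 he))
  rw [Finsupp.weight_apply, Finsupp.sum_fintype _ _ (fun _ => by simp)]
  simpa using h1

theorem coreZ (K : Type) [Field K] [NumberField K] (N₀ : ℕ)
    (ω : Module.Basis (Fin N₀) ℤ (𝓞 K)) (r n q m N : ℕ) (a b : 𝓞 K)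
    (hd : Disc (a : K) (b : K)) (G : Fin q → Pol (𝓞 K) r n)
    (d : Fin q → Fin r → ℕ) (kk : Fin q → ℕ) (hG : ∀ e, MHomog (G e) (d e))
    (hX : ∀ e, XHomog (G e) (kk e)) (ν : Fin N → (Fin n →₀ ℕ))
    (hν : ∀ e ∈ Finset.finsuppAntidiag Finset.univ (m + 1), ∃ s, ν s = e) (k' : ℕ)
    (Λ : Finset (Fin N →₀ ℕ)) (hΛ : ∀ α ∈ Λ, ∑ s, α s = k') (σ : K →+* ℂ)
    (hns : ∀ S : Fin r → Pt (toC σ a) (toC σ b), ∃ g : MvPolynomial (Fin N) ℂ, g ≠ 0 ∧
      g.support ⊆ Λ ∧ ∀ y ∈ ZS a b G m (toC σ) S, eval (cfv ν (pf y)) g = 0)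
    (ε : ℝ) (hε : 0 < ε) :
    ∃ H₀ : ℕ, 3 ≤ H₀ ∧ ∀ H : ℕ, H₀ ≤ H → ∃ FF : Finset (MvPolynomial (Fin N) K),
      (FF.card : ℝ) ≤ (H : ℝ) ^ ε ∧ (∀ f ∈ FF, f ≠ 0 ∧ f.support ⊆ Λ) ∧
      ∀ c : Fin N × Fin N₀ → ℤ, (∀ i, |c i| ≤ H) →
        NPt a b G m ν (fun i => ((W659.SA.vec ω c i : 𝓞 K) : K)) →
        ∃ f ∈ FF, eval (fun i => ((W659.SA.vec ω c i : 𝓞 K) : K)) f = 0 := by
  classical
  have hFG : AddGroup.FG (Pt (a : K) (b : K)) := t_M1K K (a : K) (b : K) hd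
  obtain ⟨R₀, hR⟩ := t_M2 (Pt (a : K) (b : K)) hFG
  obtain ⟨p₁, hp₁⟩ := trZ K r n q m a b G d hG ν Λ σ (disc_of σ hd) hns
  obtain ⟨C₀, hC1, hC⟩ := Pool.Agent.W305.SA.DET.main K N₀ ω N Λ
  obtain ⟨H₀, hH₀, hmain⟩ := primesE K a b hd p₁ (R₀ * r) C₀ ε hε
  refine ⟨H₀, hH₀, fun H hH => ?_⟩
  obtain ⟨T, L, hL, hT, hprod, hLR⟩ := hmain H hH
  obtain ⟨A, hAc, hAr⟩ := hR L hL
  choose κ₀ hκ₀ δ₀ hδ₀ using hAr
  have key : ∀ κ : Fin r → A, ∃ f : MvPolynomial (Fin N) K, f ≠ 0 ∧ f.support ⊆ Λ ∧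
      ∀ c : Fin N × Fin N₀ → ℤ, (∀ i, |c i| ≤ H) →
        (∃ s : Fin r → Pt (a : K) (b : K), RdZ a b G m ν (W659.SA.vec ω c) s ∧
          ∀ i, κ i = ⟨κ₀ (s i), hκ₀ (s i)⟩) →
        eval (fun i => ((W659.SA.vec ω c i : 𝓞 K) : K)) f = 0 := by
    intro κ
    obtain ⟨f, hf0, hfΛ, hf⟩ := hC H T (fun p hp => by
        obtain ⟨_, hF, _⟩ := hT p hp
        exact hF.out) hprod
      {c | (∀ i, |c i| ≤ H) ∧ ∃ s : Fin r → Pt (a : K) (b : K),
          RdZ a b G m ν (W659.SA.vec ω c) s ∧ ∀ i, κ i = ⟨κ₀ (s i), hκ₀ (s i)⟩}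
      (fun c hc => hc.1) (by
        intro p hp
        obtain ⟨hp1, hF, φ, hdφ, hkill⟩ := hT p hp
        haveI := hF
        haveI : CharP (AlgebraicClosure (ZMod p)) p :=
          charP_of_injective_ringHom (cc p).injective p
        obtain ⟨S, hS⟩ := red_classZ K (m := m) a b G ν L (fun i => (κ i).1) p φ hdφ hkill
        obtain ⟨g, hg0, hgs, hg⟩ := hp₁ p hF.out hp1 (AlgebraicClosure (ZMod p))
          ((cc p).comp φ) S
        refine ⟨AlgebraicClosure (ZMod p), inferInstance, inferInstance, (cc p).comp φ, g, hg0,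
          hgs, ?_⟩
        rintro c ⟨_, s, hs, hκ⟩
        obtain ⟨l, y, hy, hxy⟩ := hS (W659.SA.vec ω c) s hs fun i => ⟨δ₀ (s i), by
          rw [hκ i]
          exact hδ₀ (s i)⟩
        have h1 : (fun i => (cc p).comp φ (W659.SA.vec ω c i)) = l • cfv ν (pf y) := by
          funext t
          exact hxy t
        rw [h1, eval_smul g (homog_of_L hΛ hgs), hg y hy, mul_zero])
    exact ⟨f, hf0, hfΛ, fun c hc h => hf c ⟨hc, h⟩⟩
  choose f hf0 hfh hf using key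
  refine ⟨Finset.univ.image f, ?_, ?_, ?_⟩
  · refine le_trans ?_ hLR
    have hQ : Fintype.card (Fin r → A) ≤ L ^ (R₀ * r) := by
      rw [Fintype.card_fun, Fintype.card_fin, Fintype.card_coe, pow_mul]
      exact Nat.pow_le_pow_left hAc r
    have h1 : (Finset.univ.image f).card ≤ L ^ (R₀ * r) := (Finset.card_image_le).trans hQ
    exact_mod_cast h1
  · intro g hg
    rw [Finset.mem_image] at hg
    obtain ⟨x, _, rfl⟩ := hg
    exact ⟨hf0 x, hfh x⟩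
  · intro c hc hpt
    obtain ⟨s, hs⟩ := memberN K a b hd G d kk hG hX ν hν (W659.SA.vec ω c) hpt
    exact ⟨f (fun i => ⟨κ₀ (s i), hκ₀ (s i)⟩), Finset.mem_image_of_mem _ (Finset.mem_univ _),
      hf _ c hc ⟨s, hs, fun i => rfl⟩⟩

/-- the coefficients of a norm form -/
theorem nf_ne (K : Type) [Field K] [NumberField K] (F : Type) [Field F] [Algebra K F] (m : ℕ)
    (hF : Module.finrank K F = m + 1) {n N : ℕ} (y : Fin n → F) (hy : y ≠ 0)
    (f : MvPolynomial (Fin n) K) (hf : IsNF y f) (ν : Fin N → (Fin n →₀ ℕ))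
    (hν : ∀ e ∈ Finset.finsuppAntidiag Finset.univ (m + 1), ∃ s, ν s = e) :
    cfv ν f ≠ 0 := by
  classical
  haveI : FiniteDimensional K F := FiniteDimensional.of_finrank_pos (by omega)
  haveI : CharZero F := charZero_of_injective_algebraMap (algebraMap K F).injective
  obtain ⟨t, ht⟩ := Function.ne_iff.1 hy
  have h1 : MvPolynomial.map (algebraMap K (AlgebraicClosure K)) f =
      ∏ τ : F →ₐ[K] AlgebraicClosure K, ∑ t, C (τ (y t)) * X t := by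
    rw [hf, finprod_eq_prod_of_fintype]
  have h2 : MvPolynomial.map (algebraMap K (AlgebraicClosure K)) f ≠ 0 := by
    rw [h1, Finset.prod_ne_zero_iff]
    intro τ _
    exact lin_ne _ t ((map_ne_zero τ).2 ht)
  have h3 : (MvPolynomial.map (algebraMap K (AlgebraicClosure K)) f).IsHomogeneous (m + 1) := by
    rw [h1]
    have h := IsHomogeneous.prod (Finset.univ : Finset (F →ₐ[K] AlgebraicClosure K))
      (fun τ => ∑ t, C (τ (y t)) * X t) (fun _ => 1) (fun τ _ => lin_homog _)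
    rw [Finset.sum_const, Finset.card_univ, AlgHom.card K F (AlgebraicClosure K), hF] at h
    simpa using h
  obtain ⟨e, he⟩ := ne_zero_iff.1 h2
  obtain ⟨s, hs⟩ := hν e (supp_of_homog h3 (mem_support_iff.2 he))
  intro h0
  apply he
  rw [coeff_map, ← hs]
  have h4 := congrFun h0 s
  have h5 : coeff (ν s) f = 0 := h4
  rw [h5, map_zero]

theorem partZ (K : Type) [Field K] [NumberField K] (r n q m N : ℕ) (a b : 𝓞 K)
    (hd : 4 * a ^ 3 + 27 * b ^ 2 ≠ 0) (G : Fin q → Pol (𝓞 K) r n)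
    (d : Fin q → Fin r → ℕ) (kk : Fin q → ℕ) (hG : ∀ e, MHomog (G e) (d e))
    (hX : ∀ e, XHomog (G e) (kk e)) (ν : Fin N → (Fin n →₀ ℕ))
    (hν : ∀ e ∈ Finset.finsuppAntidiag Finset.univ (m + 1), ∃ s, ν s = e) (k' : ℕ) (hk : 1 ≤ k')
    (Λ : Finset (Fin N →₀ ℕ)) (hΛ : ∀ α ∈ Λ, ∑ s, α s = k') (σ : K →+* ℂ)
    (hns : ∀ S : Fin r → Pt (toC σ a) (toC σ b), ∃ g : MvPolynomial (Fin N) ℂ, g ≠ 0 ∧
      g.support ⊆ Λ ∧ ∀ y ∈ ZS a b G m (toC σ) S, (∀ j, y j ≠ 0) →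
        eval (cfv ν (pf y)) g = 0)
    (ε : ℝ) (hε : 0 < ε) :
    ∃ C : ℝ, ∀ B : ℝ, 1 ≤ B → ∃ FF : Finset (MvPolynomial (Fin N) K),
      (FF.card : ℝ) ≤ C * B ^ ε ∧ (∀ f ∈ FF, f ≠ 0 ∧ f.support ⊆ Λ) ∧
      ∀ (F : Type) [Field F] [Algebra K F] (y : Fin n → F) (f : MvPolynomial (Fin n) K),
        Module.finrank K F = m + 1 → y ≠ 0 → IsNF y f →
        (∃ V : Fin r → Fin 3 → F, (∀ i, OnK (algebraMap K F a) (algebraMap K F b) (V i)) ∧
          ∀ e, vl ((algebraMap K F).comp (algebraMap (𝓞 K) K)) (G e) V y = 0) →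
        Height.mulHeight (cfv ν f) ≤ B → ∃ h ∈ FF, eval (cfv ν f) h = 0 := by
  classical
  have hdK := BD.disc_ne hd
  obtain ⟨N₀, ω, C, hC0, hC⟩ := reduce K N
  set ε' : ℝ := ε / ((N : ℝ) + 1) with hε'
  have hε'0 : 0 < ε' := by positivity
  obtain ⟨H₀, hH₀, hmain⟩ := coreZ K N₀ ω r n q m N a b hdK G d kk hG hX ν hν k' Λ hΛ σ (by
    intro S
    obtain ⟨g, hg0, hgs, hg⟩ := hns S
    refine ⟨g, hg0, hgs, fun y hy => ?_⟩
    by_cases h0 : ∀ j, y j ≠ 0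
    · exact hg y hy h0
    · push Not at h0
      obtain ⟨j, hj⟩ := h0
      have h1 : pf y = 0 := by
        unfold pf
        refine Finset.prod_eq_zero (Finset.mem_univ j) ?_
        rw [hj]
        simp
      have h2 : cfv ν (pf y) = (0 : ℂ) • (0 : Fin N → ℂ) := by
        rw [h1, smul_zero]
        funext s
        unfold cfv
        rw [coeff_zero]
        rfl
      rw [h2, eval_smul g (homog_of_L hΛ hgs), zero_pow (by omega), zero_mul]) ε' hε'0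
  refine ⟨(C + 1 + H₀) ^ ε', fun B hB => ?_⟩
  set H : ℕ := ⌈C * B ^ (N + 1)⌉₊ + H₀ with hH
  have hB' : (1 : ℝ) ≤ B ^ (N + 1) := one_le_pow₀ hB
  have hHle : (H : ℝ) ≤ (C + 1 + H₀) * B ^ (N + 1) := by
    have h1 := (Nat.ceil_lt_add_one (by positivity : 0 ≤ C * B ^ (N + 1))).le
    have h2 : (0 : ℝ) ≤ H₀ := Nat.cast_nonneg _
    rw [hH]
    push_cast
    nlinarith
  have hHge : C * B ^ (N + 1) ≤ H := by
    rw [hH]
    push_cast
    have h1 := Nat.le_ceil (C * B ^ (N + 1))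
    have h2 : (0 : ℝ) ≤ H₀ := Nat.cast_nonneg _
    linarith
  obtain ⟨FF, hFF1, hFF2, hFF3⟩ := hmain H (by omega)
  refine ⟨FF, hFF1.trans (rpow_bound N C B ε hC0 hB hε H₀ H hHle), hFF2, ?_⟩
  intro F _ _ y f hdeg hy0 hNF hpt hfB
  have hv0 : cfv ν f ≠ 0 := nf_ne K F m hdeg y hy0 f hNF ν hν
  obtain ⟨c, u, hu, hcu, hcB⟩ := hC B (Projectivization.mk K (cfv ν f) hv0) (by
    rw [Projectivization.mulHeight_mk hv0]
    exact hfB)
  obtain ⟨w, hw⟩ := Projectivization.exists_smul_eq_mk_rep K (cfv ν f) hv0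
  have hcu' : ∀ i, ((W659.SA.vec ω c i : 𝓞 K) : K) = (u * w) * cfv ν f i := by
    intro i
    rw [hcu i, ← hw, mul_assoc]
    rfl
  have huw : u * (w : K) ≠ 0 := mul_ne_zero hu w.ne_zero
  obtain ⟨h, hh, hh0⟩ := hFF3 c (by
    intro i
    have h1 : |(c i : ℝ)| ≤ H := (hcB i).trans hHge
    exact_mod_cast h1) ⟨F, inferInstance, inferInstance, y, f, u * w, hdeg, hy0, hNF, huw,
      hcu', hpt⟩
  refine ⟨h, hh, ?_⟩
  have h1 : (fun i => ((W659.SA.vec ω c i : 𝓞 K) : K)) = (u * (w : K)) • cfv ν f := by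
    funext i
    rw [hcu' i]
    rfl
  rw [h1, eval_smul h (homog_of_L hΛ (hFF2 h hh).2)] at hh0
  exact (mul_eq_zero.1 hh0).resolve_left (pow_ne_zero _ huw)

end Pool.Agent.Y213.NF
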