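import Pool.Agent.Y213.NF.Cfg
import Pool.Agent.W305.SA.DET

/-! Transfer of the hypotheses on products of linear forms. -/

set_option autoImplicit false

namespace Pool.Agent.Y213.NF

open WeierstrassCurve Pool.Agent.H901R3.MS MvPolynomial NumberField Pool.Agent.Y213.EC

/-- the product of the linear forms with the coefficients `y j` -/
noncomputable def pf {R : Type} [CommRing R] {μ n : ℕ} (y : Fin μ → Fin n → R) :
    MvPolynomial (Fin n) R :=
  ∏ j, ∑ t, C (y j t) * X t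

/-- some coefficients of a polynomial -/
noncomputable def cfv {R : Type} [CommRing R] {N n : ℕ} (ν : Fin N → (Fin n →₀ ℕ))
    (f : MvPolynomial (Fin n) R) : Fin N → R :=
  fun s => coeff (ν s) f

theorem map_pf {R R' : Type} [CommRing R] [CommRing R'] (φ : R →+* R') {μ n : ℕ}
    (y : Fin μ → Fin n → R) : MvPolynomial.map φ (pf y) = pf (fun j t => φ (y j t)) := by
  unfold pf
  simp only [map_prod, map_sum, map_mul, map_C, map_X]

theorem map_cfv {R R' : Type} [CommRing R] [CommRing R'] (φ : R →+* R') {μ n N : ℕ}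
    (ν : Fin N → (Fin n →₀ ℕ)) (y : Fin μ → Fin n → R) (s : Fin N) :
    φ (cfv ν (pf y) s) = cfv ν (pf (fun j t => φ (y j t))) s := by
  unfold cfv
  rw [← map_pf, coeff_map]

variable {r n m q : ℕ}

open scoped Classical in
/-- the tuples `y` such that `S` is a sum of points of the members `y j` -/
def ZS {O k : Type} [CommRing O] [Field k] (a b : O) (G : Fin q → Pol O r n) (m : ℕ)
    (φ : O →+* k) (S : Fin r → Pt (φ a) (φ b)) : Set (Fin (m + 1) → Fin n → k) :=
  {y | ∃ P : Fin (m + 1) → Fin r → Pt (φ a) (φ b),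
    (∀ j e, vl φ (G e) (fun i => rep (P j i)) (y j) = 0) ∧ ∀ i, ∑ j, P j i = S i}

/-- the equations with the parameters of the `j`-th point -/
noncomputable def GG {O : Type} [CommRing O] (G : Fin q → Pol O r n) (m : ℕ) (j : Fin (m + 1))
    (e : Fin q) : Pol O r ((m + 1) * n) :=
  rename (Sum.map id fun t => finProdFinEquiv (j, t)) (G e)

theorem vl_GG {O k : Type} [CommRing O] [CommRing k] (φ : O →+* k) (G : Fin q → Pol O r n)
    (j : Fin (m + 1)) (e : Fin q) (V : Fin r → Fin 3 → k) (y : Fin ((m + 1) * n) → k) :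
    vl φ (GG G m j e) V y = vl φ (G e) V (fun t => y (finProdFinEquiv (j, t))) := by
  unfold vl GG
  rw [eval₂_rename]
  congr 1
  funext x
  rcases x with ij | t <;> rfl

theorem mhomog_GG {O : Type} [CommRing O] (G : Fin q → Pol O r n) (d : Fin q → Fin r → ℕ)
    (hG : ∀ e, MHomog (G e) (d e)) (j : Fin (m + 1)) (e : Fin q) :
    MHomog (GG G m j e) (d e) := by
  classical
  have hinj : Function.Injective (Sum.map id fun t : Fin n => finProdFinEquiv (j, t) :
      (Fin r × Fin 3) ⊕ Fin n → (Fin r × Fin 3) ⊕ Fin ((m + 1) * n)) := by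
    apply Function.Injective.sumMap Function.injective_id
    intro t t' h
    have := finProdFinEquiv.injective h
    exact (Prod.mk.inj this).2
  intro x hx i
  unfold GG at hx
  rw [support_rename_of_injective hinj, Finset.mem_image] at hx
  obtain ⟨y, hy, rfl⟩ := hx
  rw [← hG e y hy i]
  refine Finset.sum_congr rfl fun c _ => ?_
  have h1 : (Sum.inl (i, c) : (Fin r × Fin 3) ⊕ Fin ((m + 1) * n)) =
      (Sum.map id fun t : Fin n => finProdFinEquiv (j, t)) (Sum.inl (i, c)) := rfl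
  rw [h1, Finsupp.mapDomain_apply hinj]

/-- the matrix of the values of the monomials -/
noncomputable def mmZ (O : Type) [CommRing O] {N n : ℕ} (m : ℕ) (ν : Fin N → (Fin n →₀ ℕ))
    (Λ : Finset (Fin N →₀ ℕ)) :
    Matrix {α // α ∈ Λ} {α // α ∈ Λ} (MvPolynomial ({α // α ∈ Λ} × Fin ((m + 1) * n)) O) :=
  Matrix.of fun β α => ∏ s, cfv ν (pf fun (j : Fin (m + 1)) (t : Fin n) =>
    (X (β, finProdFinEquiv (j, t)) : MvPolynomial ({α // α ∈ Λ} × Fin ((m + 1) * n)) O)) s ^
      (α.1 s)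

theorem eval_mmZ {O k : Type} [CommRing O] [CommRing k] (φ : O →+* k) {N n : ℕ}
    (ν : Fin N → (Fin n →₀ ℕ)) (Λ : Finset (Fin N →₀ ℕ)) [DecidableEq {α // α ∈ Λ}]
    (y : {α // α ∈ Λ} → Fin ((m + 1) * n) → k) :
    eval₂ φ (fun lt : {α // α ∈ Λ} × Fin ((m + 1) * n) => y lt.1 lt.2) (mmZ O m ν Λ).det =
      (Matrix.of fun β α : {α // α ∈ Λ} => ∏ s, cfv ν (pf fun (j : Fin (m + 1)) (t : Fin n) =>
        y β (finProdFinEquiv (j, t))) s ^ (α.1 s)).det := by
  rw [← coe_eval₂Hom, RingHom.map_det]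
  congr 1
  ext β α
  simp only [mmZ, RingHom.mapMatrix_apply, Matrix.map_apply, Matrix.of_apply, map_prod, map_pow]
  refine Finset.prod_congr rfl fun s _ => ?_
  rw [map_cfv]
  simp only [coe_eval₂Hom, eval₂_X]

theorem trZ (K : Type) [Field K] [NumberField K] (r n q m : ℕ) (a b : 𝓞 K)
    (G : Fin q → Pol (𝓞 K) r n) (d : Fin q → Fin r → ℕ) (hG : ∀ e, MHomog (G e) (d e))
    {N : ℕ} (ν : Fin N → (Fin n →₀ ℕ)) (Λ : Finset (Fin N →₀ ℕ)) (σ : K →+* ℂ)
    (hd : Disc (toC σ a) (toC σ b))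
    (hns : ∀ S : Fin r → Pt (toC σ a) (toC σ b), ∃ g : MvPolynomial (Fin N) ℂ, g ≠ 0 ∧
      g.support ⊆ Λ ∧ ∀ y ∈ ZS a b G m (toC σ) S, eval (cfv ν (pf y)) g = 0) :
    ∃ p₁ : ℕ, ∀ p : ℕ, p.Prime → p₁ ≤ p → ∀ (k : Type) [Field k] [CharP k p] (φ : 𝓞 K →+* k)
      (S : Fin r → Pt (φ a) (φ b)), ∃ g : MvPolynomial (Fin N) k, g ≠ 0 ∧
      g.support ⊆ Λ ∧ ∀ y ∈ ZS a b G m φ S, eval (cfv ν (pf y)) g = 0 := by
  classical
  by_contra hcon
  push Not at hcon
  obtain ⟨S, y, P, h1, h2, h3⟩ := transfer K a b (GG G m) d (mhomog_GG G d hG)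
    (mmZ (𝓞 K) m ν Λ).det σ hd (by
    intro M
    obtain ⟨p, hp, hNp, k, hk, hc, φ, S, hS⟩ := hcon M
    refine ⟨p, hp, hNp, k, hk, hc, φ, ?_⟩
    by_cases hspan : Submodule.span k
        ((fun x : Fin N → k => fun α : {α // α ∈ Λ} => ∏ i, x i ^ (α.1 i)) ''
          ((fun y => cfv ν (pf y)) '' (ZS a b G m φ S))) = ⊤
    · obtain ⟨x, hxY, hdet⟩ := Pool.Agent.W305.SA.DET.caseB Λ _ hspan
      choose y hy hyx using hxY
      choose P hP1 hP2 using hy
      refine ⟨S, fun l s => y l (finProdFinEquiv.symm s).1 (finProdFinEquiv.symm s).2, P,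
        fun l j e => ?_, fun l i => hP2 l i, ?_⟩
      · rw [vl_GG]
        simp only [Equiv.symm_apply_apply]
        exact hP1 l j e
      · have h5 := eval_mmZ (m := m) φ ν Λ
          (fun l s => y l (finProdFinEquiv.symm s).1 (finProdFinEquiv.symm s).2)
        beta_reduce at h5 ⊢
        rw [h5]
        simp only [Equiv.symm_apply_apply]
        have h4 : ∀ β, x β = cfv ν (pf fun (j : Fin (m + 1)) (t : Fin n) => y β j t) :=
          fun β => (hyx β).symm
        simp only [h4] at hdet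
        convert hdet
    · obtain ⟨Γ, h0, h1, h2⟩ := Pool.Agent.W305.SA.DET.caseA Λ _ hspan
      obtain ⟨y, hy, hy'⟩ := hS Γ h0 h1
      exact absurd (h2 _ ⟨y, hy, rfl⟩) hy')
  obtain ⟨g, hg0, hgs, hg⟩ := hns S
  apply h3
  rw [eval_mmZ, ← Matrix.exists_mulVec_eq_zero_iff]
  refine ⟨fun α => g.coeff α.1, ?_, ?_⟩
  · intro h0
    apply hg0
    ext t
    rw [coeff_zero]
    by_cases ht : t ∈ Λ
    · exact congrFun h0 ⟨t, ht⟩
    · exact notMem_support_iff.mp fun h => ht (hgs h)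
  · ext β
    have h4 := hg (fun j t => y β (finProdFinEquiv (j, t))) ⟨P β, fun j e => by
      rw [← vl_GG]
      exact h1 β j e, fun i => h2 β i⟩
    rw [Pool.Agent.W305.SA.DET.eval_eq_sum Λ g hgs] at h4
    simp only [Matrix.mulVec, dotProduct, Pi.zero_apply]
    rw [← h4]
    refine Finset.sum_congr rfl fun α _ => ?_
    simp only [Matrix.of_apply]
    rw [mul_comm]

end Pool.Agent.Y213.NF
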