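import Pool.Agent.Y213.BD.Ext
import Pool.Agent.Y213.NF.TrZ

/-! The norm form of a point of bounded degree and the sum of the conjugates. -/

set_option autoImplicit false

namespace Pool.Agent.Y213.NF

open WeierstrassCurve Pool.Agent.H901R3.MS NumberField Pool.Agent.Y213.EC
open Pool.Agent.Y213.BD

open scoped Classical in
/-- The sum of the conjugates of a point is rational. -/
theorem descendN (K : Type) [Field K] [NumberField K] (F : Type) [Field F] [Algebra K F] (m : ℕ)
    (hF : Module.finrank K F = m + 1) (a b : K) (hd : Disc a b) (r : ℕ)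
    (V : Fin r → Fin 3 → F)
    (hV : ∀ i, OnK (algebraMap K F a) (algebraMap K F b) (V i)) :
    ∃ (M : Type) (_ : Field M) (_ : NumberField M) (_ : Algebra K M)
      (e : Fin (m + 1) ≃ (F →ₐ[K] M))
      (P : Fin (m + 1) → Fin r → Pt (algebraMap K M a) (algebraMap K M b)) (s : Fin r → Pt a b),
      (∀ j i, ∃ c : M, c ≠ 0 ∧ ∀ t, rep (P j i) t = c * e j (V i t)) ∧
      ∀ J : Pt a b →+ Pt (algebraMap K M a) (algebraMap K M b),
        (∀ (x y : K) (h : (CV a b).toAffine.Nonsingular x y),
          ∃ g : (CV (algebraMap K M a) (algebraMap K M b)).toAffine.Nonsingular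
            (algebraMap K M x) (algebraMap K M y),
          J (Affine.Point.some x y h) = Affine.Point.some _ _ g) → ∀ i, ∑ j, P j i = J (s i) := by
  obtain ⟨M, hM1, hM2, hM3, hM4, ⟨e⟩⟩ := embeds K F m hF
  haveI : FiniteDimensional K M := Module.Finite.of_restrictScalars_finite ℚ K M
  haveI : Fintype (F →ₐ[K] M) := Fintype.ofEquiv _ e
  have hdM : Disc (algebraMap K M a) (algebraMap K M b) := by
    unfold Disc at hd ⊢
    have h := (map_ne_zero (algebraMap K M)).2 hd
    rw [map_mul, map_add, map_mul, map_mul, map_pow, map_pow, map_ofNat, map_ofNat,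
      map_ofNat] at h
    exact h
  have hdF : Disc (algebraMap K F a) (algebraMap K F b) := by
    unfold Disc at hd ⊢
    have h := (map_ne_zero (algebraMap K F)).2 hd
    rw [map_mul, map_add, map_mul, map_mul, map_pow, map_pow, map_ofNat, map_ofNat,
      map_ofNat] at h
    exact h
  have hQ : ∀ i, ∃ (Q : Pt (algebraMap K F a) (algebraMap K F b)) (c : F), c ≠ 0 ∧
      ∀ t, V i t = c * rep Q t := fun i => t_PTSK F _ _ (V i) hdF (hV i)
  choose Q c hc0 hc using hQ
  have hJ : ∀ τ : F →ₐ[K] M, ∃ J : Pt (algebraMap K F a) (algebraMap K F b) →+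
      Pt (algebraMap K M a) (algebraMap K M b), ∀ (x y : F)
      (h : (CV (algebraMap K F a) (algebraMap K F b)).toAffine.Nonsingular x y),
      ∃ g : (CV (algebraMap K M a) (algebraMap K M b)).toAffine.Nonsingular (τ x) (τ y),
        J (Affine.Point.some x y h) = Affine.Point.some _ _ g := fun τ =>
    exists_map (τ : F →+* M) (τ.commutes a) (τ.commutes b) hdM
  choose J hJ using hJ
  have hG : ∀ g : M ≃ₐ[K] M, ∃ J : Pt (algebraMap K M a) (algebraMap K M b) →+
      Pt (algebraMap K M a) (algebraMap K M b), ∀ (x y : M)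
      (h : (CV (algebraMap K M a) (algebraMap K M b)).toAffine.Nonsingular x y),
      ∃ k : (CV (algebraMap K M a) (algebraMap K M b)).toAffine.Nonsingular (g x) (g y),
        J (Affine.Point.some x y h) = Affine.Point.some _ _ k := fun g =>
    exists_map ((g : M →ₐ[K] M) : M →+* M) (g.commutes a) (g.commutes b) hdM
  choose jg hjg using hG
  have hcomp : ∀ (g : M ≃ₐ[K] M) (τ : F →ₐ[K] M) (Q : Pt (algebraMap K F a) (algebraMap K F b)),
      jg g (J τ Q) = J ((g : M →ₐ[K] M).comp τ) Q := by
    intro g τ Q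
    rcases Q with _ | ⟨x, y, h⟩
    · have h0 : (Affine.Point.zero : Pt (algebraMap K F a) (algebraMap K F b)) = 0 := rfl
      rw [h0, map_zero, map_zero, map_zero]
    · obtain ⟨g1, h1⟩ := hJ τ x y h
      obtain ⟨g2, h2⟩ := hjg g _ _ g1
      obtain ⟨g3, h3⟩ := hJ ((g : M →ₐ[K] M).comp τ) x y h
      rw [h1, h2, h3]
      rfl
  have hinv : ∀ (g : M ≃ₐ[K] M) i, jg g (∑ j, J (e j) (Q i)) = ∑ j, J (e j) (Q i) := by
    intro g i
    rw [map_sum, Equiv.sum_comp e (fun τ => jg g (J τ (Q i))),
      Equiv.sum_comp e (fun τ => J τ (Q i))]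
    simp only [hcomp]
    let E : (F →ₐ[K] M) ≃ (F →ₐ[K] M) :=
      { toFun := fun τ => (g : M →ₐ[K] M).comp τ
        invFun := fun τ => (g.symm : M →ₐ[K] M).comp τ
        left_inv := fun τ => by
          ext x
          simp
        right_inv := fun τ => by
          ext x
          simp }
    exact Equiv.sum_comp E (fun τ => J τ (Q i))
  have hs : ∀ i, ∃ s : Pt a b, ∀ J' : Pt a b →+ Pt (algebraMap K M a) (algebraMap K M b),
      (∀ (x y : K) (h : (CV a b).toAffine.Nonsingular x y),
        ∃ g : (CV (algebraMap K M a) (algebraMap K M b)).toAffine.Nonsingular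
          (algebraMap K M x) (algebraMap K M y),
        J' (Affine.Point.some x y h) = Affine.Point.some _ _ g) →
      J' s = ∑ j, J (e j) (Q i) := by
    intro i
    refine fixed_pt K M a b hd _ ?_
    intro g x y h hS
    have h1 := hinv g i
    rw [hS] at h1
    obtain ⟨k, hk⟩ := hjg g x y h
    rw [hk, Affine.Point.some.injEq] at h1
    exact h1
  choose s hs using hs
  refine ⟨M, hM1, hM2, hM3, e, fun j i => J (e j) (Q i), s,
    ?_, fun J' hJ' i => (hs i J' hJ').symm⟩
  intro j i
  refine ⟨(e j (c i))⁻¹, inv_ne_zero ((map_ne_zero _).2 (hc0 i)), fun t => ?_⟩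
  have h1 : rep (J (e j) (Q i)) t = e j (rep (Q i) t) := by
    rcases Q i with _ | ⟨x, y, h⟩
    · have h0 : (Affine.Point.zero : Pt (algebraMap K F a) (algebraMap K F b)) = 0 := rfl
      rw [h0, map_zero]
      fin_cases t <;> simp [rep, ← Affine.Point.zero_def]
    · obtain ⟨g1, h1⟩ := hJ (e j) x y h
      rw [h1]
      fin_cases t <;> simp [rep]
  rw [h1, hc i t]
  have h2 : e j (c i * rep (Q i) t) = e j (c i) * e j (rep (Q i) t) := map_mul _ _ _
  rw [h2, ← mul_assoc, inv_mul_cancel₀ ((map_ne_zero _).2 (hc0 i)), one_mul]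

open MvPolynomial

/-- `f` is the norm form `N_{F/K}(y_1 T_1 + ⋯ + y_n T_n)` -/
def IsNF {K F : Type} [Field K] [Field F] [Algebra K F] {n : ℕ} (y : Fin n → F)
    (f : MvPolynomial (Fin n) K) : Prop :=
  MvPolynomial.map (algebraMap K (AlgebraicClosure K)) f =
    ∏ᶠ τ : F →ₐ[K] AlgebraicClosure K, ∑ t, C (τ (y t)) * X t

theorem nf_pf (K : Type) [Field K] [NumberField K] (F : Type) [Field F] [Algebra K F] (m : ℕ)
    (hF : Module.finrank K F = m + 1) (M : Type) [Field M] [NumberField M] [Algebra K M]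
    (e : Fin (m + 1) ≃ (F →ₐ[K] M)) {n : ℕ} (y : Fin n → F) (f : MvPolynomial (Fin n) K)
    (hf : IsNF y f) :
    MvPolynomial.map (algebraMap K M) f = pf (fun j t => e j (y t)) := by
  classical
  haveI : FiniteDimensional K F := FiniteDimensional.of_finrank_pos (by omega)
  haveI : CharZero F := charZero_of_injective_algebraMap (algebraMap K F).injective
  haveI : FiniteDimensional K M := Module.Finite.of_restrictScalars_finite ℚ K M
  let κ : M →ₐ[K] AlgebraicClosure K := IsAlgClosed.lift
  have hκ : Function.Injective κ := (κ : M →+* AlgebraicClosure K).injective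
  let g : Fin (m + 1) → (F →ₐ[K] AlgebraicClosure K) := fun j => κ.comp (e j)
  have hg : Function.Bijective g := by
    rw [Fintype.bijective_iff_injective_and_card]
    constructor
    · intro j j' h
      apply e.injective
      ext x
      apply hκ
      exact congrArg (fun h : F →ₐ[K] AlgebraicClosure K => h x) h
    · rw [Fintype.card_fin, AlgHom.card K F (AlgebraicClosure K), hF]
  apply map_injective (κ : M →+* AlgebraicClosure K) hκ
  rw [MvPolynomial.map_map, map_pf]
  have h1 : (κ : M →+* AlgebraicClosure K).comp (algebraMap K M) =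
      algebraMap K (AlgebraicClosure K) := κ.comp_algebraMap
  rw [h1, hf, finprod_eq_prod_of_fintype]
  unfold pf
  exact (hg.prod_comp fun τ : F →ₐ[K] AlgebraicClosure K => ∑ t, C (τ (y t)) * X t).symm

/-- scaling of a vector at a place -/
theorem exists_scale {M k : Type} [Field M] [Field k] (v : Place M k) {n : ℕ} (z : Fin n → M)
    (hz : z ≠ 0) : ∃ l : M, l ≠ 0 ∧ (∀ t, l * z t ∈ v.A) ∧ ∃ t, v.r (l * z t) ≠ 0 := by
  classical
  have key : ∀ s : Finset (Fin n), (∀ t ∈ s, z t ≠ 0) → s.Nonempty →
      ∃ t₀ ∈ s, ∀ t ∈ s, (z t₀)⁻¹ * z t ∈ v.A := by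
    intro s
    induction s using Finset.induction_on with
    | empty => exact fun _ h => absurd h Finset.not_nonempty_empty
    | insert a s ha ih =>
      intro hs _
      by_cases hne : s.Nonempty
      · obtain ⟨t₀, ht₀, h⟩ := ih (fun t ht => hs t (Finset.mem_insert_of_mem ht)) hne
        by_cases hA : (z t₀)⁻¹ * z a ∈ v.A
        · refine ⟨t₀, Finset.mem_insert_of_mem ht₀, fun t ht => ?_⟩
          rcases Finset.mem_insert.1 ht with rfl | ht
          · exact hA
          · exact h t ht
        · obtain ⟨h1, _⟩ := v.inv_of_notMem _ hA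
          rw [mul_inv, inv_inv] at h1
          refine ⟨a, Finset.mem_insert_self _ _, fun t ht => ?_⟩
          rcases Finset.mem_insert.1 ht with rfl | ht
          · rw [inv_mul_cancel₀ (hs _ (Finset.mem_insert_self _ _))]
            exact v.A.one_mem
          · have h2 := v.A.mul_mem h1 (h t ht)
            have h3 : z t₀ * (z a)⁻¹ * ((z t₀)⁻¹ * z t) = (z a)⁻¹ * z t := by
              have h4 := hs t₀ (Finset.mem_insert_of_mem ht₀)
              field_simp
            rw [h3] at h2
            exact h2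
      · rw [Finset.not_nonempty_iff_eq_empty] at hne
        subst hne
        refine ⟨a, Finset.mem_insert_self _ _, fun t ht => ?_⟩
        rcases Finset.mem_insert.1 ht with rfl | ht
        · rw [inv_mul_cancel₀ (hs _ (Finset.mem_insert_self _ _))]
          exact v.A.one_mem
        · exact absurd ht (Finset.notMem_empty _)
  obtain ⟨t₁, ht₁⟩ := Function.ne_iff.1 hz
  obtain ⟨t₀, ht₀, h⟩ := key (Finset.univ.filter fun t => z t ≠ 0)
    (fun t ht => (Finset.mem_filter.1 ht).2) ⟨t₁, Finset.mem_filter.2 ⟨Finset.mem_univ _, ht₁⟩⟩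
  have h0 : z t₀ ≠ 0 := (Finset.mem_filter.1 ht₀).2
  refine ⟨(z t₀)⁻¹, inv_ne_zero h0, fun t => ?_, t₀, ?_⟩
  · by_cases ht : z t = 0
    · rw [ht, mul_zero]
      exact v.A.zero_mem
    · exact h t (Finset.mem_filter.2 ⟨Finset.mem_univ _, ht⟩)
  · rw [inv_mul_cancel₀ h0, Place.r_one]
    exact one_ne_zero

end Pool.Agent.Y213.NF
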