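import Pool.Agent.Y213.NF.Desc
import Pool.Agent.Y213.BD.Core

/-! The reduction of the norm forms of the points of bounded degree. -/

set_option autoImplicit false

namespace Pool.Agent.Y213.NF

open WeierstrassCurve Pool.Agent.H901R3.MS MvPolynomial NumberField Pool.Agent.Y213.EC
open Pool.Agent.Y213.BD

variable {r n m q N : ℕ}

/-- the vector `x` is proportional to the vector of the coefficients of the norm form of a vector
`y` over a field of degree `m + 1`, and the family has a point over this field above `y` -/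
def NPt {K : Type} [Field K] (a b : 𝓞 K) (G : Fin q → Pol (𝓞 K) r n) (m : ℕ)
    (ν : Fin N → (Fin n →₀ ℕ)) (x : Fin N → K) : Prop :=
  ∃ (F : Type) (_ : Field F) (_ : Algebra K F) (y : Fin n → F) (f : MvPolynomial (Fin n) K)
    (u : K), Module.finrank K F = m + 1 ∧ y ≠ 0 ∧ IsNF y f ∧ u ≠ 0 ∧
    (∀ s, x s = u * coeff (ν s) f) ∧
    ∃ V : Fin r → Fin 3 → F, (∀ i, OnK (algebraMap K F a) (algebraMap K F b) (V i)) ∧
      ∀ e, vl ((algebraMap K F).comp (algebraMap (𝓞 K) K)) (G e) V y = 0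

theorem lin_homog {R : Type} [CommRing R] (y : Fin n → R) :
    (∑ t, C (y t) * X t : MvPolynomial (Fin n) R).IsHomogeneous 1 := by
  refine IsHomogeneous.sum _ _ _ fun t _ => ?_
  have h := (isHomogeneous_C (Fin n) (y t)).mul (isHomogeneous_X R t)
  rwa [zero_add] at h

theorem pf_homog {R : Type} [CommRing R] {μ : ℕ} (y : Fin μ → Fin n → R) :
    (pf y).IsHomogeneous μ := by
  unfold pf
  have h := IsHomogeneous.prod Finset.univ (fun j => ∑ t, C (y j t) * X t) (fun _ => 1)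
    (fun j _ => lin_homog (y j))
  simpa using h

theorem lin_ne {R : Type} [CommRing R] (y : Fin n → R) (t₀ : Fin n) (h : y t₀ ≠ 0) :
    (∑ t, C (y t) * X t : MvPolynomial (Fin n) R) ≠ 0 := by
  classical
  intro h0
  apply h
  have h1 := congrArg (coeff (Finsupp.single t₀ 1)) h0
  rw [coeff_sum, coeff_zero, Finset.sum_eq_single t₀] at h1
  · rwa [coeff_C_mul, coeff_X, if_pos rfl, mul_one] at h1
  · intro t _ ht
    rw [coeff_C_mul, coeff_X', if_neg, mul_zero]
    intro h2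
    exact ht (Finsupp.single_left_injective one_ne_zero h2)
  · intro h2
    exact absurd (Finset.mem_univ _) h2

theorem pf_ne {R : Type} [Field R] {μ : ℕ} (y : Fin μ → Fin n → R) (h : ∀ j, ∃ t, y j t ≠ 0) :
    pf y ≠ 0 := by
  unfold pf
  rw [Finset.prod_ne_zero_iff]
  intro j _
  obtain ⟨t, ht⟩ := h j
  exact lin_ne _ t ht

theorem pf_scale {R : Type} [CommRing R] {μ : ℕ} (l : Fin μ → R) (y : Fin μ → Fin n → R) :
    pf (fun j t => l j * y j t) = C (∏ j, l j) * pf y := by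
  unfold pf
  rw [map_prod, ← Finset.prod_mul_distrib]
  refine Finset.prod_congr rfl fun j _ => ?_
  rw [Finset.mul_sum]
  refine Finset.sum_congr rfl fun t _ => ?_
  rw [C_mul, mul_assoc]

open scoped Classical in
/-- the reductions of the vector `x` are proportional to products of linear forms with points whose
sum is the reduction of `s` -/
def RdZ {K : Type} [Field K] [NumberField K] (a b : 𝓞 K)
    (G : Fin q → Pol (𝓞 K) r n) (m : ℕ) (ν : Fin N → (Fin n →₀ ℕ)) (x : Fin N → 𝓞 K)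
    (s : Fin r → Pt (a : K) (b : K)) : Prop :=
  ∀ (p : ℕ) [Fact p.Prime] (φ : 𝓞 K →+* ZMod p)
    (w : Place K (ZMod p)), (∀ x : 𝓞 K, (x : K) ∈ w.A ∧ w.r (x : K) = φ x) →
    ∀ redK : Pt (a : K) (b : K) →+ Pt (φ a) (φ b), IsRd w redK →
    ∀ (k : Type) [Field k] [IsAlgClosed k] (c : ZMod p →+* k),
    Disc (c.comp φ a) (c.comp φ b) →
    ∀ jc : Pt (φ a) (φ b) →+ Pt (c.comp φ a) (c.comp φ b),
    (∀ (x y : ZMod p) (h : (CV (φ a) (φ b)).toAffine.Nonsingular x y),
      ∃ g : (CV (c.comp φ a) (c.comp φ b)).toAffine.Nonsingular (c x) (c y),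
        jc (Affine.Point.some x y h) = Affine.Point.some _ _ g) →
    ∃ (l : k) (y : Fin (m + 1) → Fin n → k),
      y ∈ ZS a b G m (c.comp φ) (fun i => jc (redK (s i))) ∧
      ∀ t, c (φ (x t)) = l * cfv ν (pf y) t

open scoped Classical in
theorem memberN (K : Type) [Field K] [NumberField K] (a b : 𝓞 K) (hd : Disc (a : K) (b : K))
    (G : Fin q → Pol (𝓞 K) r n) (d : Fin q → Fin r → ℕ) (kk : Fin q → ℕ)
    (hG : ∀ e, MHomog (G e) (d e)) (hX : ∀ e, XHomog (G e) (kk e))
    (ν : Fin N → (Fin n →₀ ℕ)) (hν : ∀ e ∈ Finset.finsuppAntidiag Finset.univ (m + 1), ∃ s, ν s = e)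
    (x : Fin N → 𝓞 K) (hx : NPt a b G m ν (fun t => (x t : K))) :
    ∃ s : Fin r → Pt (a : K) (b : K), RdZ a b G m ν x s := by
  obtain ⟨F, hF1, hF2, y, f, u, hdeg, hy0, hNF, hu, hxu, V, hV, hz⟩ := hx
  obtain ⟨M, hM1, hM2, hM3, E, P, s, hP, hsum⟩ := descendN K F m hdeg (a : K) (b : K) hd r V hV
  refine ⟨s, ?_⟩
  intro p _ φ w hw redK hred k _ _ c hdc jc hjc
  have hp : p ≠ 0 := (Fact.out : p.Prime).ne_zero
  haveI : CharP k p := charP_of_injective_ringHom c.injective p
  have hinj : Function.Injective (algebraMap (𝓞 K) (𝓞 M)) :=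
    FaithfulSMul.algebraMap_injective (𝓞 K) (𝓞 M)
  obtain ⟨ψ, hψ⟩ := exists_ext (𝓞 K) (𝓞 M) k hinj (c.comp φ)
  obtain ⟨v, hv⟩ := exists_place M k p hp ψ
  have hvK : ∀ x : 𝓞 K, algebraMap K M (x : K) ∈ v.A ∧
      v.r (algebraMap K M (x : K)) = c (φ x) := by
    intro x
    have h1 := hv (algebraMap (𝓞 K) (𝓞 M) x)
    rw [hψ x] at h1
    exact h1
  obtain ⟨redv, hredv⟩ := exists_red v (a := algebraMap K M (a : K))
    (b := algebraMap K M (b : K)) (a' := c.comp φ a)
    (b' := c.comp φ b) (hvK a).1 (hvK b).1 (hvK a).2 (hvK b).2 hdc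
  have hdM : Disc (algebraMap K M (a : K)) (algebraMap K M (b : K)) := BD.disc_map _ hd
  obtain ⟨J, hJ⟩ := exists_map (algebraMap K M) (a := (a : K)) (b := (b : K)) rfl rfl hdM
  -- scaling
  have hsc : ∀ j : Fin (m + 1), ∃ l : M, l ≠ 0 ∧ (∀ t, l * E j (y t) ∈ v.A) ∧
      ∃ t, v.r (l * E j (y t)) ≠ 0 := by
    intro j
    refine exists_scale v (fun t => E j (y t)) ?_
    obtain ⟨t, ht⟩ := Function.ne_iff.1 hy0
    intro h0
    exact (map_ne_zero (E j)).2 ht (congrFun h0 t)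
  choose l hl0 hlA hlr using hsc
  let zA : Fin (m + 1) → Fin n → v.A := fun j t => ⟨l j * E j (y t), hlA j t⟩
  have hzr : ∀ j t, v.ρ (zA j t) = v.r (l j * E j (y t)) := fun j t => (v.r_of (hlA j t)).symm
  let yb : Fin (m + 1) → Fin n → k := fun j t => v.ρ (zA j t)
  have hpf0 : pf yb ≠ 0 := pf_ne yb fun j => by
    obtain ⟨t, ht⟩ := hlr j
    exact ⟨t, by
      change v.ρ (zA j t) ≠ 0
      rw [hzr]
      exact ht⟩
  have hw1 : ∀ e, ((coeff e (pf zA) : v.A) : M) = (∏ j, l j) * algebraMap K M (coeff e f) := by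
    intro e
    have h1 : MvPolynomial.map v.A.subtype (pf zA) = C (∏ j, l j) *
        MvPolynomial.map (algebraMap K M) f := by
      rw [map_pf, nf_pf K F m hdeg M E y f hNF, ← pf_scale]
      rfl
    have h2 := congrArg (coeff e) h1
    rw [coeff_map, coeff_C_mul, coeff_map] at h2
    exact h2
  have hw2 : ∀ e, v.ρ (coeff e (pf zA)) = coeff e (pf yb) := by
    intro e
    rw [← coeff_map, map_pf]
  obtain ⟨e₀, he₀⟩ : ∃ e, coeff e (pf yb) ≠ 0 := ne_zero_iff.1 hpf0
  have he₀m : e₀ ∈ Finset.finsuppAntidiag Finset.univ (m + 1) :=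
    supp_of_homog (pf_homog yb) (mem_support_iff.2 he₀)
  obtain ⟨s₀, hs₀⟩ := hν e₀ he₀m
  have hLne : (∏ j, l j) ≠ 0 := Finset.prod_ne_zero_iff.2 fun j _ => hl0 j
  set μ : M := algebraMap K M u / ∏ j, l j with hμ
  have hxμ : ∀ t, algebraMap K M (x t : K) = μ * ((coeff (ν t) (pf zA) : v.A) : M) := by
    intro t
    have h1 : (x t : K) = u * coeff (ν t) f := hxu t
    rw [hw1, h1, map_mul, hμ]
    field_simp
  have hμA : μ ∈ v.A := by
    have h1 : v.ρ (coeff e₀ (pf zA)) ≠ 0 := by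
      rw [hw2]
      exact he₀
    have h2 := v.inv_of_ne _ h1
    have h3 : ((coeff e₀ (pf zA) : v.A) : M) ≠ 0 := by
      intro h0
      apply h1
      have : (coeff e₀ (pf zA) : v.A) = 0 := Subtype.ext h0
      rw [this, map_zero]
    have h4 : μ = algebraMap K M (x s₀ : K) * ((coeff e₀ (pf zA) : v.A) : M)⁻¹ := by
      rw [hxμ s₀, hs₀, mul_assoc, mul_inv_cancel₀ h3, mul_one]
    rw [h4]
    exact v.A.mul_mem (hvK _).1 h2
  refine ⟨v.r μ, yb, ⟨fun j i => redv (P j i), ?_, ?_⟩, ?_⟩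
  · intro j e
    have h1 : ∀ i, ∃ u : M, ∀ t, u * E j (V i t) ∈ v.A ∧
        v.r (u * E j (V i t)) = rep (redv (P j i)) t := by
      intro i
      obtain ⟨u, hu, hu'⟩ := rep_red v (hvK a).1 (hvK b).1 (hvK a).2 (hvK b).2 hredv (P j i)
      obtain ⟨c', hc', hc⟩ := hP j i
      refine ⟨u * c', fun t => ?_⟩
      have h2 := hu' t
      rw [hc t, ← mul_assoc] at h2
      exact h2
    choose u hu using h1
    have h2 := (T6.loc_valG v ((algebraMap K M).comp (algebraMap (𝓞 K) K)) (c.comp φ)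
      (fun x => hvK x) v.A.subtype v.ρ (fun x => ⟨x.2, v.r_of x.2⟩) (fun i t => E j (V i t))
      (fun i => rep (redv (P j i))) u hu (G e) (d e) (hG e) (zA j)).2
    have h3 : vl ((algebraMap K M).comp (algebraMap (𝓞 K) K)) (G e) (fun i t => E j (V i t))
        (fun t => v.A.subtype (zA j t)) = 0 := by
      have h5 : (fun t => v.A.subtype (zA j t)) = fun t => l j * E j (y t) := rfl
      rw [h5, vl_xscale _ (G e) (kk e) (hX e)]
      have h4 := congrArg (E j : F →+* M) (hz e)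
      rw [vl_map, map_zero, ← RingHom.comp_assoc] at h4
      have h6 : (E j : F →+* M).comp (algebraMap K F) = algebraMap K M := (E j).comp_algebraMap
      rw [h6] at h4
      have h7 : vl ((algebraMap K M).comp (algebraMap (𝓞 K) K)) (G e)
        (fun i t => E j (V i t)) (fun t => E j (y t)) = 0 := h4
      rw [h7, mul_zero]
    rw [h3, mul_zero, Place.r_zero] at h2
    exact h2.symm
  · intro i
    have h1 : ∑ j, redv (P j i) = redv (∑ j, P j i) := (map_sum redv _ _).symm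
    beta_reduce
    rw [h1, hsum J hJ i]
    exact red_cmp K (ZMod p) p hp φ w hw M k (algebraMap K M) c v hvK hred hredv (map_zero J) hJ
      (map_zero jc) hjc (s i)
  · intro t
    rw [← (hvK (x t)).2, hxμ t, v.r_mul hμA (coeff (ν t) (pf zA)).2, v.r_of
      (coeff (ν t) (pf zA)).2]
    congr 1
    exact hw2 (ν t)

end Pool.Agent.Y213.NF
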