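import Pool.Agent.Y213.BD.Cfg

/-! Transfer of configurations of points, the equations depending on the point. -/

set_option autoImplicit false

namespace Pool.Agent.Y213.NF

open WeierstrassCurve Pool.Agent.H901R3.MS MvPolynomial NumberField Pool.Agent.Y213.EC
open Pool.Agent.Y213.BD

open scoped WeierstrassCurve.Projective

section

variable {ι : Type} {r n m q : ℕ}

/-- the left hand sides of the equations -/
noncomputable def exG {O : Type} [CommRing O] (a b : O) (G : Fin (m + 1) → Fin q → Pol O r n)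
    (D : MvPolynomial (ι × Fin n) O) (τ : ι → Fin r → Fin m → Bool) (R : Type) [CommRing R]
    (φ : O →+* R) (v : Vr ι r n m → R) : Ix ι r m q → R
  | .onV l j i => v (.V l j i 1) ^ 2 * v (.V l j i 2) - (v (.V l j i 0) ^ 3 +
      φ a * v (.V l j i 0) * v (.V l j i 2) ^ 2 + φ b * v (.V l j i 2) ^ 3)
  | .dualV l j i => (∑ c : Fin 3, v (.V l j i c) * v (.W l j i c)) - 1
  | .onS i => v (.S i 1) ^ 2 * v (.S i 2) - (v (.S i 0) ^ 3 +
      φ a * v (.S i 0) * v (.S i 2) ^ 2 + φ b * v (.S i 2) ^ 3)
  | .dualS i => (∑ c : Fin 3, v (.S i c) * v (.T i c)) - 1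
  | .eqG l j e => vl φ (G j e) (fun i c => v (.V l j i c)) (fun t => v (.Y l t))
  | .det => eval₂ φ (fun lt => v (.Y lt.1 lt.2)) D * v .D - 1
  | .step l i j c => if τ l i j = true then
      ps (CR (φ a) (φ b)) (ext τ l i) (vec v l i) j c - v (.U l i j) * vec v l i (j + 1) c
    else (∑ c : Fin 3, ∑ c' : Fin 3, v (.Z l i j c c') *
      (ps (CR (φ a) (φ b)) (ext τ l i) (vec v l i) j c * vec v l i (j + 1) c' -
        ps (CR (φ a) (φ b)) (ext τ l i) (vec v l i) j c' * vec v l i (j + 1) c)) - 1
  | .last l i c => ps (CR (φ a) (φ b)) (ext τ l i) (vec v l i) m c - v (.Q l i) * v (.S i c)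

theorem exG_nat {O : Type} [CommRing O] (a b : O) (G : Fin (m + 1) → Fin q → Pol O r n)
    (D : MvPolynomial (ι × Fin n) O) (τ : ι → Fin r → Fin m → Bool) {R R' : Type} [CommRing R]
    [CommRing R'] (φ : O →+* R) (f : R →+* R') (v : Vr ι r n m → R) (x : Ix ι r m q) :
    f (exG a b G D τ R φ v x) = exG a b G D τ R' (f.comp φ) (fun y => f (v y)) x := by
  cases x with
  | onV l j i => simp only [exG, map_sub, map_mul, map_pow, map_add, RingHom.comp_apply]
  | dualV l j i => simp only [exG, map_sub, map_mul, map_sum, map_one]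
  | onS i => simp only [exG, map_sub, map_mul, map_pow, map_add, RingHom.comp_apply]
  | dualS i => simp only [exG, map_sub, map_mul, map_sum, map_one]
  | eqG l j e =>
    simp only [exG]
    exact vl_map φ f (G j e) _ _
  | det => simp only [exG, map_sub, map_mul, map_one, hom_eval₂, Function.comp_def]
  | step l i j c =>
    simp only [exG]
    split_ifs with h
    · rw [map_sub, map_mul, ps_nat]
      rfl
    · simp only [map_sub, map_mul, map_sum, map_one, ps_nat]
      rfl
  | last l i c =>
    simp only [exG]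
    rw [map_sub, map_mul, ps_nat]

/-- the equations as polynomials -/
noncomputable def eqQ {O : Type} [CommRing O] (a b : O) (G : Fin (m + 1) → Fin q → Pol O r n)
    (D : MvPolynomial (ι × Fin n) O) (τ : ι → Fin r → Fin m → Bool) :
    Set (MvPolynomial (Vr ι r n m) O) :=
  Set.range fun x : Ix ι r m q => exG a b G D τ (MvPolynomial (Vr ι r n m) O) C X x

theorem eqQ_iff {O : Type} [CommRing O] (a b : O) (G : Fin (m + 1) → Fin q → Pol O r n)
    (D : MvPolynomial (ι × Fin n) O) (τ : ι → Fin r → Fin m → Bool) {R : Type} [CommRing R]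
    (φ : O →+* R) (v : Vr ι r n m → R) :
    (∀ f ∈ Ideal.span (eqQ a b G D τ), eval₂ φ v f = 0) ↔ ∀ x, exG a b G D τ R φ v x = 0 := by
  have key : ∀ x, eval₂Hom φ v (exG a b G D τ (MvPolynomial (Vr ι r n m) O) C X x) =
      exG a b G D τ R φ v x := by
    intro x
    rw [exG_nat]
    congr 1
    · ext y
      simp
    · funext y
      simp
  constructor
  · intro h x
    rw [← key x]
    exact h _ (Ideal.subset_span ⟨x, rfl⟩)
  · intro h f hf
    have h2 : Ideal.span (eqQ a b G D τ) ≤ RingHom.ker (eval₂Hom φ v) := by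
      rw [Ideal.span_le]
      rintro _ ⟨x, rfl⟩
      change eval₂Hom φ v _ = 0
      rw [key, h x]
    exact h2 hf

end

end Pool.Agent.Y213.NF
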